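import Pool.Agent.helper28.Hex.Tiles

/-!
# Boards with at most three rows, and the result
-/

set_option autoImplicit false

namespace Pool.Agent.Hex

variable {n w : ℕ}

theorem length_ge {α : Type} (f : α → ℕ) (R : α → α → Prop) (hR : ∀ a b, R a b → f b ≤ f a + 1) :
    ∀ (l : List α) (a : α), (a :: l).IsChain R → ∀ b ∈ (a :: l).getLast?, f b ≤ f a + l.length := by
  intro l
  induction l with
  | nil =>
    intro a _ b hb
    simp only [List.getLast?_singleton, Option.mem_def, Option.some.injEq] at hb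
    subst hb; simp
  | cons c l ih =>
    intro a hch b hb
    rw [List.isChain_cons_cons] at hch
    have h1 := ih c hch.2 b (by simpa only [List.getLast?_cons_cons] using hb)
    have h2 := hR a c hch.1
    simp only [List.length_cons]; omega

theorem length_le_card {l : List (Cell n w)} {S : Finset (Cell n w)} (h : l.Nodup) (hS : ∀ c ∈ l, c ∈ S) :
    l.length ≤ S.card := by
  classical
  rw [← List.toFinset_card_of_nodup h]
  exact Finset.card_le_card fun c hc => hS c (List.mem_toFinset.1 hc)

theorem RowChain.card {S : Finset (Cell n w)} {m : ℕ} (h : RowChain S m) : n ≤ S.card ∧ n ≤ m := by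
  obtain ⟨l, ⟨hn, hch⟩, hB, hL, ⟨a, ha, ha0⟩, ⟨b, hb, hbn⟩⟩ := h
  have h1 := length_le_card hn hB
  cases l with
  | nil => simp at ha
  | cons a' l =>
    simp only [List.head?_cons, Option.mem_def, Option.some.injEq] at ha
    subst ha
    have h2 := length_ge (fun c : Cell n w => (c.1 : ℕ)) Adj (by
      intro c d hcd
      unfold Adj at hcd
      simp only [Finset.mem_insert, Finset.mem_singleton, Prod.mk.injEq] at hcd
      show (d.1 : ℕ) ≤ (c.1 : ℕ) + 1
      omega) l a' hch b hb
    simp only [List.length_cons] at hL h1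
    omega

theorem ColChain.card {S : Finset (Cell n w)} (h : ColChain S) : w ≤ S.card := by
  obtain ⟨l, ⟨hn, hch⟩, hB, ⟨a, ha, ha0⟩, ⟨b, hb, hbn⟩⟩ := h
  have h1 := length_le_card hn hB
  cases l with
  | nil => simp at ha
  | cons a' l =>
    simp only [List.head?_cons, Option.mem_def, Option.some.injEq] at ha
    subst ha
    have h2 := length_ge (fun c : Cell n w => (c.2 : ℕ)) Adj (by
      intro c d hcd
      unfold Adj at hcd
      simp only [Finset.mem_insert, Finset.mem_singleton, Prod.mk.injEq] at hcd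
      show (d.2 : ℕ) ≤ (c.2 : ℕ) + 1
      omega) l a' hch b hb
    simp only [List.length_cons] at h1
    omega

theorem Forces.ge {L : ℕ} {B W : Finset (Cell n w)} (h : Forces n w L B W) : n ≤ L := by
  induction h with
  | win B W c hB hW hc => exact hc.card.2
  | step B W c hB hW hn he hc hf ih =>
    obtain ⟨d, h1, h2⟩ := he
    exact ih d h1 h2

theorem forces1 : Forces 1 1 1 ∅ ∅ := by
  refine Forces.win ∅ ∅ (0, 0) (by simp) (by simp) ⟨[(0, 0)], ⟨by simp, by simp⟩, by simp, by simp, ?_, ?_⟩
  · exact ⟨(0, 0), by simp, by simp⟩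
  · exact ⟨(0, 0), by simp, by simp⟩

theorem forces2 : Forces 2 2 2 ∅ ∅ := by
  have win : ∀ (S : Finset (Cell 2 2)) (b : Cell 2 2), (b = (1, 0) ∨ b = (1, 1)) → (0, 1) ∈ S → b ∈ S →
      RowChain S 2 := by
    intro S b hb h1 h2
    refine ⟨[(0, 1), b], ⟨?_, ?_⟩, ?_, by simp, ⟨(0, 1), by simp, by simp⟩, ⟨b, by simp, ?_⟩⟩
    · rcases hb with rfl | rfl <;> decide
    · rcases hb with rfl | rfl <;> simp only [List.isChain_cons_cons, List.isChain_singleton, and_true] <;> decide
    · simp [h1, h2]
    · rcases hb with rfl | rfl <;> rfl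
  refine Forces.step ∅ ∅ (0, 1) (by simp) (by simp) ?_ ⟨(0, 0), by decide, by decide⟩ ?_ ?_
  · intro m h
    have := h.card.1
    revert this; decide
  · intro d _ _ h
    have := h.card
    have h1 : (insert d (∅ : Finset (Cell 2 2))).card ≤ 1 := by simp
    omega
  · intro d hd _
    by_cases h : d = (1, 0)
    · refine Forces.win _ _ (1, 1) (by decide) (by rw [h]; decide) (win _ (1, 1) (Or.inr rfl) ?_ ?_) <;> simp
    · refine Forces.win _ _ (1, 0) (by decide) ?_ (win _ (1, 0) (Or.inl rfl) ?_ ?_)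
      · simpa using fun h' => h h'.symm
      · simp
      · simp

/-- the second move of Black on the board with three rows -/
def f3 (d : Cell 3 3) : Cell 3 3 :=
  if d = (0, 1) then (0, 2) else if d = (0, 2) then (0, 1) else if d = (2, 1) then (2, 0) else
  if d = (2, 0) then (2, 1) else (0, 1)

/-- the third move of Black on the board with three rows -/
def g3 (d e : Cell 3 3) : Cell 3 3 :=
  if d = (2, 1) ∨ d = (2, 0) then (if e = (0, 1) then (0, 2) else (0, 1))
  else (if e = (2, 1) then (2, 0) else (2, 1))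

theorem forces3 : Forces 3 3 3 ∅ ∅ := by
  have win : ∀ (S : Finset (Cell 3 3)), (∃ a b : Cell 3 3, (a = (0, 1) ∨ a = (0, 2)) ∧ (b = (2, 0) ∨ b = (2, 1)) ∧
      (1, 1) ∈ S ∧ a ∈ S ∧ b ∈ S) → RowChain S 3 := by
    rintro S ⟨a, b, ha, hb, h0, h1, h2⟩
    refine ⟨[a, (1, 1), b], ⟨?_, ?_⟩, ?_, by simp, ⟨a, by simp, ?_⟩, ⟨b, by simp, ?_⟩⟩
    · rcases ha with rfl | rfl <;> rcases hb with rfl | rfl <;> decide
    · rcases ha with rfl | rfl <;> rcases hb with rfl | rfl <;>
        simp only [List.isChain_cons_cons, List.isChain_singleton, and_true] <;> decide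
    · simp [h0, h1, h2]
    · rcases ha with rfl | rfl <;> rfl
    · rcases hb with rfl | rfl <;> rfl
  refine Forces.step ∅ ∅ (1, 1) (by simp) (by simp) ?_ ⟨(0, 0), by decide, by decide⟩ ?_ ?_
  · intro m h
    have := h.card.1
    revert this; decide
  · intro d _ _ h
    have := h.card
    have h1 : (insert d (∅ : Finset (Cell 3 3))).card ≤ 1 := by simp
    omega
  · intro d hd _
    have k1 : ∀ d : Cell 3 3, d ∉ (insert (1, 1) ∅ : Finset (Cell 3 3)) →
        f3 d ∉ (insert (1, 1) ∅ : Finset (Cell 3 3)) ∧ f3 d ∉ (insert d ∅ : Finset (Cell 3 3)) := by decide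
    obtain ⟨h1, h2⟩ := k1 d hd
    refine Forces.step _ _ (f3 d) h1 h2 ?_ ?_ ?_ ?_
    · intro m h
      have := h.card.1
      have h3 : (insert (f3 d) (insert (1, 1) (∅ : Finset (Cell 3 3)))).card ≤ 2 := Finset.card_le_two
      omega
    · revert d; decide
    · intro e _ _ h
      have := h.card
      have h3 : (insert e (insert d (∅ : Finset (Cell 3 3)))).card ≤ 2 := Finset.card_le_two
      omega
    · intro e he1 he2
      have k2 : ∀ d e : Cell 3 3, d ∉ (insert (1, 1) ∅ : Finset (Cell 3 3)) →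
          e ∉ (insert (f3 d) (insert (1, 1) ∅) : Finset (Cell 3 3)) → e ∉ (insert d ∅ : Finset (Cell 3 3)) →
          g3 d e ∉ (insert (f3 d) (insert (1, 1) ∅) : Finset (Cell 3 3)) ∧
          g3 d e ∉ (insert e (insert d ∅) : Finset (Cell 3 3)) ∧
          ∃ a b : Cell 3 3, (a = (0, 1) ∨ a = (0, 2)) ∧ (b = (2, 0) ∨ b = (2, 1)) ∧
            (1, 1) ∈ (insert (g3 d e) (insert (f3 d) (insert (1, 1) ∅)) : Finset (Cell 3 3)) ∧
            a ∈ (insert (g3 d e) (insert (f3 d) (insert (1, 1) ∅)) : Finset (Cell 3 3)) ∧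
            b ∈ (insert (g3 d e) (insert (f3 d) (insert (1, 1) ∅)) : Finset (Cell 3 3)) := by
        decide +kernel
      obtain ⟨h3, h4, h5⟩ := k2 d e hd he1 he2
      exact Forces.win _ _ (g3 d e) h3 h4 (win _ h5)

/-- the lower bound for all boards -/
theorem lower {L : ℕ} {B W : Finset (Cell n w)} (h : Forces n w L B W) : n + n / 7 ≤ L + B.card :=
  (sys7 w).bound (by norm_num) h

theorem minLen_ge (n : ℕ) : ((n + n / 7 : ℕ) : ℕ∞) ≤ minLen n := by
  refine le_sInf ?_
  rintro _ ⟨L, rfl, h⟩
  have := lower h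
  rw [Finset.card_empty, Nat.add_zero] at this
  exact_mod_cast this

theorem minLen_ge_succ {n : ℕ} (hn : 4 ≤ n) : ((n + 1 : ℕ) : ℕ∞) ≤ minLen n := by
  refine le_sInf ?_
  rintro _ ⟨L, rfl, h⟩
  have key : n + 1 ≤ L := by
    rcases Nat.lt_or_ge n 7 with h7 | h7
    · interval_cases n
      · have := (sysS 3 4 D44 chk44).bound (by norm_num) h
        rw [Finset.card_empty, Nat.add_zero] at this
        omega
      · have := (sysS 3 5 D45 chk45).bound (by norm_num) h
        rw [Finset.card_empty, Nat.add_zero] at this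
        omega
      · have := (sysS 4 6 D56 chk56).bound (by norm_num) h
        rw [Finset.card_empty, Nat.add_zero] at this
        omega
    · have := lower h
      rw [Finset.card_empty, Nat.add_zero] at this
      omega
  exact_mod_cast key

theorem minLen_eq {n : ℕ} (h : Forces n n n ∅ ∅) : minLen n = n := by
  apply le_antisymm
  · exact sInf_le ⟨n, rfl, h⟩
  · refine le_sInf ?_
    rintro _ ⟨L, rfl, h⟩
    exact_mod_cast h.ge

theorem minLen_eq_iff {n : ℕ} (hn : 1 ≤ n) : minLen n = n ↔ n ≤ 3 := by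
  constructor
  · intro h
    by_contra h1
    have h2 := minLen_ge_succ (n := n) (by omega)
    rw [h] at h2
    have : n + 1 ≤ n := by exact_mod_cast h2
    omega
  · intro h
    interval_cases n
    · exact minLen_eq forces1
    · exact minLen_eq forces2
    · exact minLen_eq forces3

end Pool.Agent.Hex
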