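import Mathlib

/-!
# MP_c07608_co: the length of the shortest forced winning chain in Hex, the definitions used in the statement
-/

set_option autoImplicit false

namespace Pool.Agent.Hex

/-- The cells of the board with `n` rows and `w` columns; rows and columns are numbered from `0`. -/
abbrev Cell (n w : ℕ) : Type := Fin n × Fin w

section

variable {n w : ℕ}

/-- Two cells are adjacent when their difference is one of `(0, ±1)`, `(±1, 0)`, `(1, -1)`, `(-1, 1)`. -/
def Adj (c d : Cell n w) : Prop :=
  (((d.1 : ℕ) : ℤ) - ((c.1 : ℕ) : ℤ), ((d.2 : ℕ) : ℤ) - ((c.2 : ℕ) : ℤ)) ∈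
    ({(0, 1), (0, -1), (1, 0), (-1, 0), (1, -1), (-1, 1)} : Finset (ℤ × ℤ))

instance (c d : Cell n w) : Decidable (Adj c d) := by unfold Adj; infer_instance

/-- A chain: pairwise distinct cells, consecutive cells are adjacent. Its length is the number of its cells. -/
def IsHexChain (l : List (Cell n w)) : Prop := l.Nodup ∧ l.IsChain Adj

/-- The stones `S` contain a chain of at most `L` cells from a cell in the first row to a cell in the last row. -/
def RowChain (S : Finset (Cell n w)) (L : ℕ) : Prop :=
  ∃ l : List (Cell n w), IsHexChain l ∧ (∀ c ∈ l, c ∈ S) ∧ l.length ≤ L ∧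
    (∃ c ∈ l.head?, (c.1 : ℕ) = 0) ∧ ∃ c ∈ l.getLast?, (c.1 : ℕ) + 1 = n

/-- The stones `S` contain a chain from a cell in the first column to a cell in the last column. -/
def ColChain (S : Finset (Cell n w)) : Prop :=
  ∃ l : List (Cell n w), IsHexChain l ∧ (∀ c ∈ l, c ∈ S) ∧
    (∃ c ∈ l.head?, (c.2 : ℕ) = 0) ∧ ∃ c ∈ l.getLast?, (c.2 : ℕ) + 1 = w

end

/-- `Forces n w L B W`: Black, who has the stones `B` against the stones `W` of White and is to move, can force a
win such that at the moment of the win her stones contain a chain of at most `L` cells from the first to the last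
row. Either she wins by her next move `c`, or she makes a move `c` which does not finish the game, White then has
a move, and after every move `d` of White, White has not won and Black can force such a win. -/
inductive Forces (n w L : ℕ) : Finset (Cell n w) → Finset (Cell n w) → Prop
  | win (B W : Finset (Cell n w)) (c : Cell n w) (hB : c ∉ B) (hW : c ∉ W)
      (h : RowChain (insert c B) L) : Forces n w L B W
  | step (B W : Finset (Cell n w)) (c : Cell n w) (hB : c ∉ B) (hW : c ∉ W)
      (hn : ∀ m, ¬ RowChain (insert c B) m)
      (he : ∃ d, d ∉ insert c B ∧ d ∉ W)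
      (hc : ∀ d, d ∉ insert c B → d ∉ W → ¬ ColChain (insert d W))
      (hf : ∀ d, d ∉ insert c B → d ∉ W → Forces n w L (insert c B) (insert d W)) : Forces n w L B W

/-- `L(n)`: the least `L` such that Black can force a win on the empty `n × n` board with a chain of at most `L`
cells (`⊤` if there is no such `L`). -/
noncomputable def minLen (n : ℕ) : ℕ∞ := sInf {x : ℕ∞ | ∃ L : ℕ, x = L ∧ Forces n n L ∅ ∅}

end Pool.Agent.Hex
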