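import Pool.Agent.helper28.Hex.Lower

/-!
# The lower bound: the strategy of White on tiles
-/

set_option autoImplicit false

namespace Pool.Agent.Hex

/-- A tiling of the board with `w` columns by tiles, each tile inside one strip of `K` rows, and a list of plans
for White: a plan is a reply `z.1` and a pairing `z.2` of the cells of the tile. -/
structure TileSys (K w : ℕ) where
  T : Type
  loc : ℕ → ℕ → T × ℕ
  strip : T → ℕ
  V : ℕ → Prop
  D : Set (ℕ × (ℕ → ℕ))
  hV : ∀ r c, c < w → V (loc r c).2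
  inj : ∀ r c r' c', c < w → c' < w → loc r c = loc r' c' → r = r' ∧ c = c'
  hstrip : ∀ r c, c < w → strip (loc r c).1 = r / K
  first : ∀ m, V m → ∃ z ∈ D, z.1 ≠ m ∧ z.2 m = m
  invol : ∀ z ∈ D, ∀ m, V m → z.2 (z.2 m) = m
  cross : ∀ (s : ℕ) (x : ℕ → ℕ), (∀ i < K, x i < w) →
    (∀ i, i + 1 < K → x (i + 1) = x i ∨ x (i + 1) + 1 = x i) →
    ∃ t, (∃ i < K, (loc (K * s + i) (x i)).1 = t) ∧ ∀ z ∈ D,
      (∃ i < K, loc (K * s + i) (x i) = (t, z.1)) ∨
      ∃ i < K, ∃ j < K, (loc (K * s + i) (x i)).1 = t ∧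
        loc (K * s + j) (x j) = (t, z.2 (loc (K * s + i) (x i)).2) ∧
        z.2 (loc (K * s + i) (x i)).2 ≠ (loc (K * s + i) (x i)).2

variable {n w K : ℕ} (Y : TileSys K w)

namespace TileSys

/-- the tile and the code of a cell -/
def lc (c : Cell n w) : Y.T × ℕ := Y.loc c.1 c.2

theorem lc_inj {c d : Cell n w} (h : Y.lc c = Y.lc d) : c = d := by
  obtain ⟨h1, h2⟩ := Y.inj _ _ _ _ c.2.2 d.2.2 h
  exact Prod.ext (Fin.ext h1) (Fin.ext h2)

/-- the tile `t` is safe for White: `B` are the stones of Black and `E` the empty cells -/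
def Safe (t : Y.T) (B : Finset (Cell n w)) (E : Set (Cell n w)) : Prop :=
  (∀ c ∈ B, (Y.lc c).1 ≠ t) ∨
  ∃ z ∈ Y.D, (∀ c : Cell n w, Y.lc c = (t, z.1) → c ∉ B ∧ c ∉ E) ∧
    ∀ c ∈ B, (Y.lc c).1 = t → ∀ d : Cell n w, Y.lc d = (t, z.2 (Y.lc c).2) → d ≠ c → d ∉ B ∧ d ∉ E

theorem Safe.mono {Y : TileSys K w} {t : Y.T} {B : Finset (Cell n w)} {E E' : Set (Cell n w)}
    (h : Y.Safe t B E) (hE : E' ⊆ E) : Y.Safe t B E' := by
  rcases h with h | ⟨z, hz, h1, h2⟩
  · exact Or.inl h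
  · exact Or.inr ⟨z, hz, fun c hc => ⟨(h1 c hc).1, fun h => (h1 c hc).2 (hE h)⟩,
      fun c hc hct d hd hdc => ⟨(h2 c hc hct d hd hdc).1, fun h => (h2 c hc hct d hd hdc).2 (hE h)⟩⟩

theorem Safe.other {Y : TileSys K w} {t : Y.T} {B : Finset (Cell n w)} {E : Set (Cell n w)} {c : Cell n w}
    (h : Y.Safe t B E) (hc : (Y.lc c).1 ≠ t) : Y.Safe t (insert c B) E := by
  rcases h with h | ⟨z, hz, h1, h2⟩
  · refine Or.inl fun d hd => ?_
    rcases Finset.mem_insert.1 hd with rfl | hd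
    · exact hc
    · exact h d hd
  · refine Or.inr ⟨z, hz, fun d hd => ⟨?_, (h1 d hd).2⟩, fun d hd hdt e he hed => ?_⟩
    · intro h3
      rcases Finset.mem_insert.1 h3 with rfl | h3
      · exact hc (by rw [hd])
      · exact (h1 d hd).1 h3
    · rcases Finset.mem_insert.1 hd with rfl | hd
      · exact absurd hdt hc
      · obtain ⟨h4, h5⟩ := h2 d hd hdt e he hed
        refine ⟨fun h3 => ?_, h5⟩
        rcases Finset.mem_insert.1 h3 with rfl | h3
        · exact hc (by rw [he])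
        · exact h4 h3

/-- the reply of White -/
theorem reply {G : Y.T → Prop} {B : Finset (Cell n w)} {E : Set (Cell n w)} {c : Cell n w} (hcE : c ∈ E)
    (hcB : c ∉ B) (h : ∀ t, G t → Y.Safe t B E) :
    ∃ e : Option (Cell n w), e ≠ some c ∧
      ∀ t, G t → Y.Safe t (insert c B) {x | x ∈ E ∧ x ≠ c ∧ some x ≠ e} := by
  classical
  set t0 := (Y.lc c).1 with ht0
  have other : ∀ (e : Option (Cell n w)) (t : Y.T), G t → t ≠ t0 →
      Y.Safe t (insert c B) {x | x ∈ E ∧ x ≠ c ∧ some x ≠ e} := fun e t hG ht =>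
    ((h t hG).other (fun h => ht h.symm)).mono fun x hx => hx.1
  by_cases hG0 : G t0
  swap
  · exact ⟨none, by simp, fun t ht => other none t ht fun h => hG0 (h ▸ ht)⟩
  -- it suffices to treat the tile of `c`
  suffices H : ∃ e : Option (Cell n w), e ≠ some c ∧
      Y.Safe t0 (insert c B) {x | x ∈ E ∧ x ≠ c ∧ some x ≠ e} by
    obtain ⟨e, he, H⟩ := H
    refine ⟨e, he, fun t ht => ?_⟩
    by_cases h1 : t = t0
    · rw [h1]; exact H
    · exact other e t ht h1
  -- the cell with a given code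
  have ex : ∀ y : ℕ, ∃ e : Option (Cell n w), e ≠ some c ∧
      ∀ x : Cell n w, Y.lc x = (t0, y) → x ≠ c → some x = e := by
    intro y
    by_cases h1 : ∃ x : Cell n w, Y.lc x = (t0, y) ∧ x ≠ c
    · obtain ⟨x, hx, hxc⟩ := h1
      refine ⟨some x, by simpa using hxc, fun x' hx' _ => ?_⟩
      rw [Y.lc_inj (hx'.trans hx.symm)]
    · exact ⟨none, by simp, fun x hx hxc => absurd ⟨x, hx, hxc⟩ h1⟩
  rcases h t0 hG0 with h0 | ⟨z, hz, h1, h2⟩
  · -- the first stone of Black in this tile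
    obtain ⟨z, hz, hz1, hz2⟩ := Y.first (Y.lc c).2 (Y.hV _ _ c.2.2)
    obtain ⟨e, he, hex⟩ := ex z.1
    refine ⟨e, he, Or.inr ⟨z, hz, fun x hx => ⟨?_, ?_⟩, fun x hx hxt d hd hdx => ?_⟩⟩
    · intro h3
      rcases Finset.mem_insert.1 h3 with rfl | h3
      · rw [hx] at hz1; exact hz1 rfl
      · exact h0 x h3 (by rw [hx])
    · rintro ⟨_, h3, h4⟩
      exact h4 (hex x hx h3)
    · rcases Finset.mem_insert.1 hx with rfl | hx
      · rw [hz2] at hd
        exact absurd (Y.lc_inj (hd.trans (Prod.ext rfl rfl : _ = Y.lc x))) hdx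
      · exact absurd hxt (h0 x hx)
  · -- the pairing
    obtain ⟨e, he, hex⟩ := ex (z.2 (Y.lc c).2)
    refine ⟨e, he, Or.inr ⟨z, hz, fun x hx => ⟨?_, ?_⟩, fun x hx hxt d hd hdx => ?_⟩⟩
    · intro h3
      rcases Finset.mem_insert.1 h3 with rfl | h3
      · exact (h1 x hx).2 hcE
      · exact (h1 x hx).1 h3
    · rintro ⟨h3, _, _⟩
      exact (h1 x hx).2 h3
    · rcases Finset.mem_insert.1 hx with rfl | hx
      · refine ⟨fun h3 => ?_, fun h3 => h3.2.2 (hex d hd hdx)⟩
        rcases Finset.mem_insert.1 h3 with rfl | h3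
        · exact hdx rfl
        · have h4 : Y.lc x = (t0, z.2 (Y.lc d).2) := by
            rw [hd]
            exact Prod.ext rfl (Y.invol z hz (Y.lc x).2 (Y.hV _ _ x.2.2)).symm
          exact (h2 d h3 (by rw [hd]) x h4 (fun h => hdx h.symm)).2 hcE
      · obtain ⟨h4, h5⟩ := h2 x hx hxt d hd hdx
        refine ⟨fun h3 => ?_, fun h3 => h5 h3.1⟩
        rcases Finset.mem_insert.1 h3 with rfl | h3
        · exact h5 hcE
        · exact h4 h3

/-- the stones as a predicate on rows and columns -/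
def Bl (B : Finset (Cell n w)) (r c : ℕ) : Prop := ∃ x ∈ B, (x.1 : ℕ) = r ∧ (x.2 : ℕ) = c

theorem not_cross {B : Finset (Cell n w)} {E : Set (Cell n w)} {s : ℕ} (hK : 0 < K)
    (h : ∀ t, Y.strip t = s → Y.Safe t B E) : ¬ Cross (Bl B) K s := by
  rintro ⟨x, hx1, hx2⟩
  have hw : ∀ i < K, x i < w := by
    intro i hi
    obtain ⟨c, _, _, h2⟩ := hx1 i hi
    rw [← h2]; exact c.2.2
  obtain ⟨t, ⟨i0, hi0, ht⟩, hz⟩ := Y.cross s x hw hx2
  have hs : Y.strip t = s := by
    rw [← ht, Y.hstrip _ _ (hw i0 hi0), Nat.mul_add_div hK, Nat.div_eq_of_lt hi0, Nat.add_zero]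
  have cell : ∀ i < K, ∃ c ∈ B, Y.lc c = Y.loc (K * s + i) (x i) := by
    intro i hi
    obtain ⟨c, hc, h1, h2⟩ := hx1 i hi
    exact ⟨c, hc, by unfold lc; rw [h1, h2]⟩
  rcases h t hs with h0 | ⟨z, hzD, h1, h2⟩
  · obtain ⟨c, hc, h3⟩ := cell i0 hi0
    exact h0 c hc (by rw [h3, ht])
  · rcases hz z hzD with ⟨i, hi, h3⟩ | ⟨i, hi, j, hj, h3, h4, h5⟩
    · obtain ⟨c, hc, h4⟩ := cell i hi
      exact (h1 c (h4.trans h3)).1 hc
    · obtain ⟨c, hc, h6⟩ := cell i hi
      obtain ⟨d, hd, h7⟩ := cell j hj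
      refine (h2 c hc (by rw [h6, h3]) d (by rw [h7, h4, h6]) ?_).1 hd
      rintro rfl
      exact h5 (congrArg Prod.snd (h6.symm.trans (h7.trans h4))).symm

/-- a chain from the first to the last row -/
theorem rowChain_count {B : Finset (Cell n w)} {L : ℕ} (hK : 1 < K) (h : RowChain B L) :
    n + cnt (Bl B) K n 0 ≤ L := by
  obtain ⟨l, ⟨_, hch⟩, hB, hL, ⟨a, ha, ha0⟩, ⟨b, hb, hbn⟩⟩ := h
  cases l with
  | nil => simp at ha
  | cons a' l =>
    simp only [List.head?_cons, Option.mem_def, Option.some.injEq] at ha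
    subst ha
    set f : Cell n w → ℕ × ℕ := fun c => (c.1, c.2) with hf
    have hch' : (f a' :: l.map f).IsChain St := by
      have : ((a' :: l).map f).IsChain St := by
        rw [List.isChain_map]
        refine hch.imp ?_
        intro c d hcd
        unfold Adj at hcd
        simp only [Finset.mem_insert, Finset.mem_singleton, Prod.mk.injEq] at hcd
        unfold St
        simp only [hf]
        omega
      simpa using this
    have hB' : ∀ c ∈ f a' :: l.map f, Bl B c.1 c.2 := by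
      intro c hc
      have : c ∈ (a' :: l).map f := by simpa using hc
      obtain ⟨d, hd, rfl⟩ := List.mem_map.1 this
      exact ⟨d, hB d hd, rfl, rfl⟩
    have hl' : ∃ c ∈ (f a' :: l.map f).getLast?, c.1 + 1 = n := by
      refine ⟨f b, ?_, hbn⟩
      have : ((a' :: l).map f).getLast? = some (f b) := by
        rw [List.getLast?_map, hb]; rfl
      simpa using this
    have := (chain_count (Bl := Bl B) hK (l.map f) (f a') hch' hB' hl').2
    have h1 : (f a').1 = 0 := ha0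
    rw [h1] at this
    simp only [List.length_cons, List.length_map] at this hL
    omega

theorem cnt_ge {B : Finset (Cell n w)} {E : Set (Cell n w)} (hK : 0 < K) (S : Finset ℕ)
    (hS : S ⊆ Finset.range (n / K)) (h : ∀ t, Y.strip t ∈ S → Y.Safe t B E) :
    S.card ≤ cnt (Bl B) K n 0 := by
  classical
  apply Finset.card_le_card
  intro s hs
  simp only [Finset.mem_filter]
  exact ⟨hS hs, Y.not_cross hK fun t ht => h t (ht ▸ hs), Nat.zero_le _⟩

theorem forces_ge (hK : 1 < K) (S : Finset ℕ) (hS : S ⊆ Finset.range (n / K)) {L : ℕ}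
    {B W : Finset (Cell n w)} (hF : Forces n w L B W)
    (h : ∀ t, Y.strip t ∈ S → Y.Safe t B {x | x ∉ B ∧ x ∉ W}) : n + S.card ≤ L := by
  induction hF with
  | win B W c hB hW hc =>
    obtain ⟨e, _, h1⟩ := Y.reply (G := fun t => Y.strip t ∈ S) (E := {x | x ∉ B ∧ x ∉ W}) (c := c) ⟨hB, hW⟩ hB h
    have h2 := Y.cnt_ge (by omega) S hS h1
    have h3 := rowChain_count hK hc
    omega
  | step B W c hB hW hn he hc hf ih =>
    obtain ⟨e, hec, h1⟩ := Y.reply (G := fun t => Y.strip t ∈ S) (E := {x | x ∉ B ∧ x ∉ W}) (c := c) ⟨hB, hW⟩ hB h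
    -- the move of White
    have : ∃ d, d ∉ insert c B ∧ d ∉ W ∧ ∀ x, some x = e → x ∈ insert c B ∨ x ∈ insert d W := by
      by_cases h2 : ∃ x, some x = e ∧ x ∉ insert c B ∧ x ∉ W
      · obtain ⟨x, hx, h3, h4⟩ := h2
        refine ⟨x, h3, h4, fun y hy => Or.inr ?_⟩
        have : y = x := Option.some_injective _ (hy.trans hx.symm)
        rw [this]; exact Finset.mem_insert_self _ _
      · obtain ⟨d, h3, h4⟩ := he
        refine ⟨d, h3, h4, fun y hy => ?_⟩
        by_contra h5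
        push Not at h5
        exact h2 ⟨y, hy, h5.1, fun h6 => h5.2 (Finset.mem_insert_of_mem h6)⟩
    obtain ⟨d, hd1, hd2, hd3⟩ := this
    refine ih d hd1 hd2 fun t ht => (h1 t ht).mono ?_
    rintro x ⟨hx1, hx2⟩
    refine ⟨⟨fun h => hx1 (Finset.mem_insert_of_mem h), fun h => hx2 (Finset.mem_insert_of_mem h)⟩, ?_, ?_⟩
    · rintro rfl; exact hx1 (Finset.mem_insert_self _ _)
    · intro h
      rcases hd3 x h with h | h
      · exact hx1 h
      · exact hx2 h

include Y in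
/-- the lower bound -/
theorem bound (hK : 1 < K) {L : ℕ} {B W : Finset (Cell n w)} (hF : Forces n w L B W) :
    n + n / K ≤ L + B.card := by
  classical
  set S : Finset ℕ := (Finset.range (n / K)) \ (B.image fun c => (c.1 : ℕ) / K) with hS
  have h1 := Y.forces_ge hK S Finset.sdiff_subset hF (by
    intro t ht
    refine Or.inl fun c hc h => ?_
    rw [hS, Finset.mem_sdiff] at ht
    apply ht.2
    rw [Finset.mem_image]
    refine ⟨c, hc, ?_⟩
    rw [← h, lc, Y.hstrip _ _ c.2.2])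
  have h2 : n / K ≤ S.card + B.card := by
    have h3 := Finset.le_card_sdiff (B.image fun c => (c.1 : ℕ) / K) (Finset.range (n / K))
    have h4 : (B.image fun c => (c.1 : ℕ) / K).card ≤ B.card := Finset.card_image_le
    rw [Finset.card_range, ← hS] at h3
    omega
  omega

end TileSys

end Pool.Agent.Hex
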