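import Pool.Agent.helper28.Hex.Defs

/-!
# The lower bound: strips without monotone crossings
-/

set_option autoImplicit false

namespace Pool.Agent.Hex

/-- `c` can be reached from the first row of its strip (of `K` rows) by a monotone path. -/
inductive Reach (Bl : ℕ → ℕ → Prop) (K : ℕ) : ℕ → ℕ → Prop
  | start (s c : ℕ) (h : Bl (K * s) c) : Reach Bl K (K * s) c
  | down (r c c' : ℕ) (h : Reach Bl K r c) (hb : Bl (r + 1) c') (hk : ¬ K ∣ r + 1)
      (hc : c' = c ∨ c' + 1 = c) : Reach Bl K (r + 1) c'

/-- there is a monotone path through the strip `s` -/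
def Cross (Bl : ℕ → ℕ → Prop) (K s : ℕ) : Prop :=
  ∃ x : ℕ → ℕ, (∀ i < K, Bl (K * s + i) (x i)) ∧
    ∀ i, i + 1 < K → x (i + 1) = x i ∨ x (i + 1) + 1 = x i

variable {Bl : ℕ → ℕ → Prop} {K : ℕ}

theorem divmod_succ (hK : 0 < K) (r : ℕ) (hk : ¬ K ∣ r + 1) :
    (r + 1) % K = r % K + 1 ∧ (r + 1) / K = r / K := by
  have h1 := Nat.mod_add_div r K
  have h2 : r % K < K := Nat.mod_lt _ hK
  have h3 : r % K + 1 < K := by
    rcases Nat.lt_or_ge (r % K + 1) K with h | h
    · exact h
    · exfalso; apply hk
      have : r % K + 1 = K := by omega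
      refine ⟨r / K + 1, ?_⟩
      rw [Nat.mul_add, Nat.mul_one]; omega
  have h4 : r + 1 = (r % K + 1) + K * (r / K) := by omega
  constructor
  · rw [h4, Nat.add_mul_mod_self_left, Nat.mod_eq_of_lt h3]
  · rw [h4, Nat.add_mul_div_left _ _ hK, Nat.div_eq_of_lt h3]; simp
 
theorem Reach.exists_path (hK : 0 < K) {r c : ℕ} (h : Reach Bl K r c) :
    ∃ x : ℕ → ℕ, x (r % K) = c ∧ (∀ i ≤ r % K, Bl (K * (r / K) + i) (x i)) ∧
      ∀ i < r % K, x (i + 1) = x i ∨ x (i + 1) + 1 = x i := by
  induction h with
  | start s c h =>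
    refine ⟨fun _ => c, rfl, ?_, ?_⟩
    · intro i hi
      simp only [Nat.mul_mod_right, Nat.le_zero] at hi
      subst hi
      simpa [Nat.mul_div_cancel_left s hK] using h
    · intro i hi
      simp at hi
  | down r c c' h hb hk hc ih =>
    obtain ⟨x, hx0, hx1, hx2⟩ := ih
    obtain ⟨e1, e2⟩ := divmod_succ hK r hk
    have h1 := Nat.mod_add_div r K
    refine ⟨Function.update x (r % K + 1) c', ?_, ?_, ?_⟩
    · rw [e1]; simp
    · intro i hi
      rw [e1] at hi
      rw [e2]
      rcases Nat.lt_or_ge (r % K) i with h | h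
      · have : i = r % K + 1 := by omega
        subst this
        rw [Function.update_self]
        have : K * (r / K) + (r % K + 1) = r + 1 := by omega
        rw [this]; exact hb
      · rw [Function.update_of_ne (by omega)]
        exact hx1 i h
    · intro i hi
      rw [e1] at hi
      rcases Nat.lt_or_ge i (r % K) with h | h
      · rw [Function.update_of_ne (by omega), Function.update_of_ne (by omega)]
        exact hx2 i h
      · have : i = r % K := by omega
        subst this
        rw [Function.update_self, Function.update_of_ne (by omega), hx0]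
        exact hc

/-- a cell reached in the last row of the strip gives a crossing -/
theorem Reach.cross (hK : 0 < K) {r c : ℕ} (h : Reach Bl K r c) (hr : K ∣ r + 1) : Cross Bl K (r / K) := by
  obtain ⟨x, hx0, hx1, hx2⟩ := h.exists_path hK
  have h1 := Nat.mod_add_div r K
  have h2 : r % K < K := Nat.mod_lt _ hK
  have h3 : r % K + 1 = K := by
    obtain ⟨q, hq⟩ := hr
    have h4 : r + 1 = (r % K + 1) + K * (r / K) := by omega
    have h5 : K ∣ r % K + 1 := by
      have : K ∣ (r % K + 1) + K * (r / K) := ⟨q, by omega⟩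
      exact (Nat.dvd_add_left ⟨_, rfl⟩).1 this
    exact Nat.le_antisymm (by omega) (Nat.le_of_dvd (by omega) h5)
  refine ⟨x, fun i hi => hx1 i (by omega), fun i hi => hx2 i (by omega)⟩

open Classical in
/-- the number of strips of `K` rows below the row `r` without a monotone crossing -/
noncomputable def cnt (Bl : ℕ → ℕ → Prop) (K n r : ℕ) : ℕ :=
  ((Finset.range (n / K)).filter fun s => ¬ Cross Bl K s ∧ r ≤ K * s).card

theorem cnt_anti {n r r' : ℕ} (h : r' ≤ r) : cnt Bl K n r ≤ cnt Bl K n r' := by
  classical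
  apply Finset.card_le_card
  intro s hs
  simp only [Finset.mem_filter] at hs ⊢
  exact ⟨hs.1, hs.2.1, h.trans hs.2.2⟩

theorem cnt_le_succ {n r r' : ℕ} (hK : 0 < K) (h : r' ≤ r + 1) :
    cnt Bl K n (K * (r / K)) ≤ cnt Bl K n r' + 1 := by
  classical
  have h1 := Nat.mod_add_div r K
  have h2 : r % K < K := Nat.mod_lt _ hK
  have : ((Finset.range (n / K)).filter fun s => ¬ Cross Bl K s ∧ K * (r / K) ≤ K * s) ⊆
      insert (r / K) ((Finset.range (n / K)).filter fun s => ¬ Cross Bl K s ∧ r' ≤ K * s) := by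
    intro s hs
    simp only [Finset.mem_filter, Finset.mem_insert] at hs ⊢
    have h3 : r / K ≤ s := Nat.le_of_mul_le_mul_left hs.2.2 hK
    rcases Nat.eq_or_lt_of_le h3 with h4 | h4
    · exact Or.inl h4.symm
    · refine Or.inr ⟨hs.1, hs.2.1, ?_⟩
      have : K * (r / K + 1) ≤ K * s := Nat.mul_le_mul_left K h4
      rw [Nat.mul_add, Nat.mul_one] at this
      omega
  exact (Finset.card_le_card this).trans (Finset.card_insert_le _ _)

theorem cnt_last {n r r' : ℕ} (hK : 0 < K) (h : r' ≤ r + 1) (hc : Cross Bl K (r / K)) :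
    cnt Bl K n (K * (r / K)) ≤ cnt Bl K n r' := by
  classical
  have h1 := Nat.mod_add_div r K
  have h2 : r % K < K := Nat.mod_lt _ hK
  apply Finset.card_le_card
  intro s hs
  simp only [Finset.mem_filter] at hs ⊢
  have h3 : r / K ≤ s := Nat.le_of_mul_le_mul_left hs.2.2 hK
  rcases Nat.eq_or_lt_of_le h3 with h4 | h4
  · exact absurd (h4 ▸ hc) hs.2.1
  · refine ⟨hs.1, hs.2.1, ?_⟩
    have : K * (r / K + 1) ≤ K * s := Nat.mul_le_mul_left K h4
    rw [Nat.mul_add, Nat.mul_one] at this
    omega

/-- steps of a chain: rows and columns -/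
def St (a b : ℕ × ℕ) : Prop :=
  (b.1 = a.1 + 1 ∧ (b.2 = a.2 ∨ b.2 + 1 = a.2)) ∨ b.1 ≤ a.1

theorem chain_count (hK : 1 < K) {n : ℕ} : ∀ (l : List (ℕ × ℕ)) (a : ℕ × ℕ),
    (a :: l).IsChain St → (∀ c ∈ a :: l, Bl c.1 c.2) →
    (∃ c ∈ (a :: l).getLast?, c.1 + 1 = n) →
    (Reach Bl K a.1 a.2 → n + cnt Bl K n (K * (a.1 / K)) ≤ (a :: l).length + a.1) ∧
      n + cnt Bl K n a.1 ≤ (a :: l).length + a.1 := by
  classical
  have hK0 : 0 < K := by omega
  intro l
  induction l with
  | nil =>
    intro a _ hB hl
    obtain ⟨c, hc, hn⟩ := hl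
    simp only [List.getLast?_singleton, Option.mem_def, Option.some.injEq] at hc
    subst hc
    have key : ∀ s, s < n / K → K * s + K ≤ n := by
      intro s hs
      calc K * s + K = K * (s + 1) := by rw [Nat.mul_add, Nat.mul_one]
        _ ≤ K * (n / K) := Nat.mul_le_mul_left K hs
        _ ≤ n := Nat.mul_div_le n K
    have z2 : cnt Bl K n a.1 = 0 := by
      unfold cnt
      rw [Finset.card_eq_zero, Finset.filter_eq_empty_iff]
      intro s hs ⟨_, h⟩
      have := key s (Finset.mem_range.1 hs)
      omega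
    refine ⟨fun hr => ?_, ?_⟩
    · have z1 : cnt Bl K n (K * (a.1 / K)) = 0 := by
        unfold cnt
        rw [Finset.card_eq_zero, Finset.filter_eq_empty_iff]
        intro s hs ⟨hs1, h⟩
        have h5 := key s (Finset.mem_range.1 hs)
        have h3 : a.1 / K ≤ s := Nat.le_of_mul_le_mul_left h hK0
        have h1 := Nat.mod_add_div a.1 K
        have h2 : a.1 % K < K := Nat.mod_lt _ hK0
        have h6 : K * (a.1 / K) ≤ K * s := h
        have h7 : a.1 / K = s := by
          apply Nat.le_antisymm h3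
          apply Nat.le_of_mul_le_mul_left _ hK0
          by_contra h8
          have h9 : a.1 / K < s := by
            by_contra h10
            exact h8 (Nat.mul_le_mul_left K (by omega))
          have : K * (a.1 / K + 1) ≤ K * s := Nat.mul_le_mul_left K h9
          rw [Nat.mul_add, Nat.mul_one] at this
          omega
        apply hs1
        rw [← h7]
        apply hr.cross hK0
        refine ⟨s + 1, ?_⟩
        rw [Nat.mul_add, Nat.mul_one]
        subst h7
        omega
      simp only [List.length_singleton]; omega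
    · simp only [List.length_singleton]; omega
  | cons b l ih =>
    intro a hch hB hl
    rw [List.isChain_cons_cons] at hch
    obtain ⟨hst, hch⟩ := hch
    have hBb : ∀ c ∈ b :: l, Bl c.1 c.2 := fun c hc => hB c (List.mem_cons_of_mem _ hc)
    have hl' : ∃ c ∈ (b :: l).getLast?, c.1 + 1 = n := by
      simpa only [List.getLast?_cons_cons] using hl
    obtain ⟨ih1, ih2⟩ := ih b hch hBb hl'
    have hlen : (a :: b :: l).length = (b :: l).length + 1 := rfl
    have hba : Bl b.1 b.2 := hBb b (by simp)
    have haa : Bl a.1 a.2 := hB a (by simp)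
    have flag : Reach Bl K a.1 a.2 → n + cnt Bl K n (K * (a.1 / K)) ≤ (a :: b :: l).length + a.1 := by
      intro hr
      rcases hst with ⟨h1, h2⟩ | h1
      · by_cases hk : K ∣ a.1 + 1
        · have := cnt_last (n := n) (r' := b.1) hK0 (by omega) (hr.cross hK0 hk)
          omega
        · have hr' : Reach Bl K (a.1 + 1) b.2 := Reach.down a.1 a.2 b.2 hr (h1 ▸ hba) hk h2
          have h3 := ih1 (h1 ▸ hr')
          rw [h1, (divmod_succ hK0 a.1 hk).2] at h3
          omega
      · have := cnt_le_succ (Bl := Bl) (n := n) (r := a.1) (r' := b.1) hK0 (by omega)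
        omega
    refine ⟨flag, ?_⟩
    rcases hst with ⟨h1, h2⟩ | h1
    · by_cases hk : K ∣ a.1
      · obtain ⟨s, hs⟩ := hk
        have hr : Reach Bl K a.1 a.2 := by
          have : Bl (K * s) a.2 := hs ▸ haa
          have := Reach.start (Bl := Bl) (K := K) s a.2 this
          rwa [← hs] at this
        have h3 := flag hr
        rwa [hs, Nat.mul_div_cancel_left s hK0, ← hs] at h3
      · have : cnt Bl K n a.1 ≤ cnt Bl K n b.1 := by
          apply Finset.card_le_card
          intro s hs
          simp only [Finset.mem_filter] at hs ⊢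
          refine ⟨hs.1, hs.2.1, ?_⟩
          have : a.1 ≠ K * s := fun h => hk ⟨s, h⟩
          omega
        omega
    · have := cnt_anti (Bl := Bl) (K := K) (n := n) h1
      have h4 := cnt_anti (Bl := Bl) (K := K) (n := n) (r := a.1) (r' := b.1) h1
      omega

end Pool.Agent.Hex
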