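import Pool.Agent.helper28.Hex.Game

/-!
# The tiles with seven rows, and the small boards
-/

set_option autoImplicit false

namespace Pool.Agent.Hex

/-- all monotone paths of `k + 1` cells which start in the cell `(i, y)` -/
def allP : ℕ → ℕ → ℕ → List (List (ℕ × ℕ))
  | 0, i, y => [[(i, y)]]
  | k + 1, i, y => ((allP k (i + 1) y) ++ (allP k (i + 1) (y - 1))).map ((i, y) :: ·)

theorem mem_allP (y : ℕ → ℕ) : ∀ k i : ℕ, (∀ j, i ≤ j → j < i + k → y (j + 1) = y j ∨ y (j + 1) + 1 = y j) →
    (List.range' i (k + 1)).map (fun j => (j, y j)) ∈ allP k i (y i) := by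
  intro k
  induction k with
  | zero => intro i _; simp [allP]
  | succ k ih =>
    intro i h
    rw [List.range'_succ, List.map_cons, allP, List.mem_map]
    refine ⟨_, ?_, rfl⟩
    have h1 := ih (i + 1) fun j hj1 hj2 => h j (by omega) (by omega)
    rw [List.mem_append]
    rcases h i le_rfl (by omega) with h2 | h2
    · left; rw [h2] at h1; exact h1
    · right
      have : y i - 1 = y (i + 1) := by omega
      rw [this]; exact h1

/-- the pairing with the number `S` -/
def sg (S x : ℕ) : ℕ := (S >>> (6 * x)) % 64

/-- the cells `V` of one tile on a path are good for the plan `z` -/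
def okPlan (V : List ℕ) (z : ℕ × ℕ) : Bool :=
  V.any (fun x => x == z.1) || V.any (fun x => sg z.2 x != x && V.any (fun y => y == sg z.2 x))

/-- the data of a tiling -/
def okPath {τ : Type} [DecidableEq τ] (lo : ℕ → ℕ → τ × ℕ) (ks : List τ) (D : List (ℕ × ℕ))
    (p : List (ℕ × ℕ)) : Bool :=
  ks.any fun k =>
    let V := p.filterMap fun z => if (lo z.1 z.2).1 = k then some (lo z.1 z.2).2 else none
    !V.isEmpty && D.all (okPlan V)

theorem okPath_spec {τ : Type} [DecidableEq τ] {lo : ℕ → ℕ → τ × ℕ} {ks : List τ} {D : List (ℕ × ℕ)} {K : ℕ}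
    {y : ℕ → ℕ} (h : okPath lo ks D ((List.range' 0 K).map fun j => (j, y j)) = true) :
    ∃ t, (∃ i < K, (lo i (y i)).1 = t) ∧ ∀ z ∈ D,
      (∃ i < K, lo i (y i) = (t, z.1)) ∨
      ∃ i < K, ∃ j < K, (lo i (y i)).1 = t ∧ lo j (y j) = (t, sg z.2 (lo i (y i)).2) ∧
        sg z.2 (lo i (y i)).2 ≠ (lo i (y i)).2 := by
  unfold okPath at h
  rw [List.any_eq_true] at h
  obtain ⟨t, _, h⟩ := h
  simp only [Bool.and_eq_true, Bool.not_eq_true', List.all_eq_true] at h
  obtain ⟨h1, h2⟩ := h
  set V := ((List.range' 0 K).map fun j => (j, y j)).filterMap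
    fun z => if (lo z.1 z.2).1 = t then some (lo z.1 z.2).2 else none with hV
  have mem : ∀ v ∈ V, ∃ i < K, lo i (y i) = (t, v) := by
    intro v hv
    rw [hV, List.mem_filterMap] at hv
    obtain ⟨a, ha, hv⟩ := hv
    rw [List.mem_map] at ha
    obtain ⟨i, hi, rfl⟩ := ha
    rw [List.mem_range'_1] at hi
    refine ⟨i, by omega, ?_⟩
    split_ifs at hv with h3
    · simp only [Option.some.injEq] at hv
      exact Prod.ext h3 hv
  refine ⟨t, ?_, fun z hz => ?_⟩
  · cases hV' : V with
    | nil => rw [hV'] at h1; simp at h1
    | cons v V' =>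
      obtain ⟨i, hi, h3⟩ := mem v (by rw [hV']; simp)
      exact ⟨i, hi, by rw [h3]⟩
  · have h3 := h2 z hz
    unfold okPlan at h3
    rw [Bool.or_eq_true, List.any_eq_true, List.any_eq_true] at h3
    rcases h3 with ⟨v, hv, h4⟩ | ⟨v, hv, h4⟩
    · left
      obtain ⟨i, hi, h5⟩ := mem v hv
      exact ⟨i, hi, by rw [h5, beq_iff_eq.1 h4]⟩
    · right
      rw [Bool.and_eq_true, List.any_eq_true] at h4
      obtain ⟨h4, u, hu, h6⟩ := h4
      obtain ⟨i, hi, h5⟩ := mem v hv
      obtain ⟨j, hj, h7⟩ := mem u hu
      refine ⟨i, hi, j, hj, by rw [h5], ?_, ?_⟩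
      · rw [h7, h5, beq_iff_eq.1 h6]
      · rw [h5]; simpa using h4

/-! ### seven rows -/

/-- the eight plans for the tile with seven rows; the cell `(i, a)` has the code `7 i + a` -/
def D7 : List (ℕ × ℕ) :=
  [(3, 24242408968171892474448504488148581903732792107833748531668038697800601378020905857093696),
   (35, 24242408968171892474447767302106891441328953734050365626945623892501586605428174633050176),
   (17, 24242408968171892474448504488148570862730982795759609900183892004152996993971513182188032),
   (1, 24242408968171892474448504488148570862730982795760205394260094345432322595595323085193287),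
   (15, 24242408968171892474448504488148570862730982795759609900117990266161189092785679581585472),
   (36, 24242408968171892474448494615121227390454343270594560951232652455153762669742063446479360),
   (11, 24242408968171892474448504488148570862730982929564081087437913992688137754569652400615936),
   (35, 24242408968171892474447767302106891441328953577945744731408882500091184560306807485531015)]

/-- the tile and the code of the cell in the row `i < 7` and the column `y` -/
def lo7 (i y : ℕ) : (ℕ × Bool) × ℕ :=
  if i + y % 8 < 7 then ((y / 8, false), 7 * i + y % 8) else ((y / 8, true), 7 * (6 - i) + (7 - y % 8))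

theorem check7 : ((List.range 8).all fun a => (allP 6 0 (a + 8)).all
    (okPath lo7 [(1, false), (1, true), (0, true)] D7)) = true := by decide +kernel

theorem first7 : ((List.range 49).all fun m => D7.any fun z => z.1 != m && sg z.2 m == m) = true := by
  decide +kernel

theorem invol7 : (D7.all fun z => (List.range 49).all fun m => sg z.2 (sg z.2 m) == m) = true := by
  decide +kernel

/-- the tiling of a strip of seven rows -/
def loc7 (r c : ℕ) : (ℕ × ℕ × Bool) × ℕ :=
  if r % 7 + (c + 8) % 8 < 7 then ((r / 7, (c + 8) / 8, false), 7 * (r % 7) + (c + 8) % 8)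
  else ((r / 7, (c + 8) / 8, true), 7 * (6 - r % 7) + (7 - (c + 8) % 8))

/-- the tiling by tiles with seven rows -/
def sys7 (w : ℕ) : TileSys 7 w where
  T := ℕ × ℕ × Bool
  loc := loc7
  strip := fun t => t.1
  V := fun m => m < 49
  D := {z | ∃ u ∈ D7, z = (u.1, sg u.2)}
  hV := by
    intro r c _
    unfold loc7
    split_ifs <;> simp only <;> omega
  inj := by
    intro r c r' c' _ _ h
    unfold loc7 at h
    split_ifs at h with h1 h2 h2 <;> simp only [Prod.mk.injEq, reduceCtorEq, and_false, false_and] at h <;> omega
  hstrip := by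
    intro r c _
    unfold loc7
    split_ifs <;> rfl
  first := by
    intro m hm
    have h := first7
    rw [List.all_eq_true] at h
    have h1 := h m (List.mem_range.2 hm)
    rw [List.any_eq_true] at h1
    obtain ⟨u, hu, h2⟩ := h1
    rw [Bool.and_eq_true] at h2
    exact ⟨_, ⟨u, hu, rfl⟩, by simpa using h2.1, by simpa using h2.2⟩
  invol := by
    rintro _ ⟨u, hu, rfl⟩ m hm
    have h := invol7
    rw [List.all_eq_true] at h
    have h1 := h u hu
    rw [List.all_eq_true] at h1
    have h2 := h1 m (List.mem_range.2 hm)
    simpa using h2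
  cross := by
    intro s x _ hx
    set q := (x 0 + 8) / 8 - 1 with hq
    set a := (x 0 + 8) % 8 with ha
    set y : ℕ → ℕ := fun i => x i + 8 - 8 * q with hy
    have hxl : ∀ i < 7, x 0 ≤ x i + i := by
      intro i hi
      induction i with
      | zero => simp
      | succ i ih =>
        have h1 := ih (by omega)
        have h2 := hx i (by omega)
        omega
    have hq8 : 8 * q + 8 ≤ x 0 + 8 := by omega
    have hya : y 0 = a + 8 := by simp only [hy]; omega
    have hys : ∀ i < 7, x i + 8 = y i + 8 * q := by
      intro i hi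
      have := hxl i hi
      simp only [hy]; omega
    have hst : ∀ j, 0 ≤ j → j < 0 + 6 → y (j + 1) = y j ∨ y (j + 1) + 1 = y j := by
      intro j _ hj
      have h1 := hys j (by omega)
      have h2 := hys (j + 1) (by omega)
      have h3 := hx j (by omega)
      omega
    have hmem := mem_allP y 6 0 hst
    rw [hya] at hmem
    have h := check7
    rw [List.all_eq_true] at h
    have h1 := h a (List.mem_range.2 (by omega))
    rw [List.all_eq_true] at h1
    have h2 := okPath_spec (h1 _ hmem)
    have key : ∀ i < 7, loc7 (7 * s + i) (x i) =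
        ((s, (lo7 i (y i)).1.1 + q, (lo7 i (y i)).1.2), (lo7 i (y i)).2) := by
      intro i hi
      have e1 := hys i hi
      have e2 : (7 * s + i) % 7 = i := by omega
      have e3 : (7 * s + i) / 7 = s := by omega
      have e4 : (x i + 8) % 8 = y i % 8 := by omega
      have e5 : (x i + 8) / 8 = y i / 8 + q := by omega
      unfold loc7 lo7
      rw [e2, e3, e4, e5]
      split_ifs <;> rfl
    obtain ⟨t, ⟨i, hi, h3⟩, h4⟩ := h2
    refine ⟨(s, t.1 + q, t.2), ⟨i, hi, by rw [key i hi, h3]⟩, ?_⟩
    rintro _ ⟨u, hu, rfl⟩
    rcases h4 u hu with ⟨i, hi, h5⟩ | ⟨i, hi, j, hj, h5, h6, h7⟩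
    · exact Or.inl ⟨i, hi, by rw [key i hi, h5]⟩
    · refine Or.inr ⟨i, hi, j, hj, by rw [key i hi, h5], ?_, ?_⟩
      · rw [key i hi, key j hj, h6]
      · rw [key i hi]; exact h7

/-! ### small boards -/

/-- the checks for a strip with `K = k + 1` rows on a board with `w` columns -/
def chk (k w : ℕ) (D : List (ℕ × ℕ)) : Bool :=
  ((List.range w).all fun a => (allP k 0 a).all (okPath (fun i y => ((), w * i + y)) [()] D)) &&
  (((List.range (w * (k + 1))).all fun m => D.any fun z => z.1 != m && sg z.2 m == m) &&
  (D.all fun z => (List.range (w * (k + 1))).all fun m => sg z.2 (sg z.2 m) == m))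

/-- strips of `k + 1` rows on a board with `w` columns -/
def sysS (k w : ℕ) (D : List (ℕ × ℕ)) (h : chk k w D = true) : TileSys (k + 1) w where
  T := ℕ
  loc := fun r c => (r / (k + 1), w * (r % (k + 1)) + c)
  strip := fun t => t
  V := fun m => m < w * (k + 1)
  D := {z | ∃ u ∈ D, z = (u.1, sg u.2)}
  hV := by
    intro r c hc
    have h1 : r % (k + 1) < k + 1 := Nat.mod_lt _ (by omega)
    show w * (r % (k + 1)) + c < w * (k + 1)
    calc w * (r % (k + 1)) + c < w * (r % (k + 1)) + w := by omega
      _ = w * (r % (k + 1) + 1) := by ring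
      _ ≤ w * (k + 1) := Nat.mul_le_mul_left w h1
  inj := by
    intro r c r' c' hc hc' h
    simp only [Prod.mk.injEq] at h
    obtain ⟨h1, h2⟩ := h
    have hw : 0 < w := by omega
    have h3 : (w * (r % (k + 1)) + c) / w = r % (k + 1) := by
      rw [Nat.mul_add_div hw, Nat.div_eq_of_lt hc, Nat.add_zero]
    have h4 : (w * (r' % (k + 1)) + c') / w = r' % (k + 1) := by
      rw [Nat.mul_add_div hw, Nat.div_eq_of_lt hc', Nat.add_zero]
    have h5 : r % (k + 1) = r' % (k + 1) := by rw [← h3, ← h4, h2]
    have h6 := Nat.mod_add_div r (k + 1)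
    have h7 := Nat.mod_add_div r' (k + 1)
    rw [h5, h1] at h6
    refine ⟨h6.symm.trans h7, ?_⟩
    rw [h5] at h2
    omega
  hstrip := fun r c _ => rfl
  first := by
    intro m hm
    unfold chk at h
    simp only [Bool.and_eq_true] at h
    have h := h.2.1
    rw [List.all_eq_true] at h
    have h1 := h m (List.mem_range.2 hm)
    rw [List.any_eq_true] at h1
    obtain ⟨u, hu, h2⟩ := h1
    rw [Bool.and_eq_true] at h2
    exact ⟨_, ⟨u, hu, rfl⟩, by simpa using h2.1, by simpa using h2.2⟩
  invol := by
    rintro _ ⟨u, hu, rfl⟩ m hm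
    unfold chk at h
    simp only [Bool.and_eq_true] at h
    have h := h.2.2
    rw [List.all_eq_true] at h
    have h1 := h u hu
    rw [List.all_eq_true] at h1
    have h2 := h1 m (List.mem_range.2 hm)
    simpa using h2
  cross := by
    intro s x hw hx
    unfold chk at h
    simp only [Bool.and_eq_true] at h
    have h := h.1
    rw [List.all_eq_true] at h
    have h1 := h (x 0) (List.mem_range.2 (hw 0 (by omega)))
    rw [List.all_eq_true] at h1
    have hmem := mem_allP x k 0 fun j _ hj => hx j (by omega)
    obtain ⟨t, ⟨i, hi, h3⟩, h4⟩ := okPath_spec (h1 _ hmem)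
    have key : ∀ i < k + 1, (((k + 1) * s + i) / (k + 1), w * (((k + 1) * s + i) % (k + 1)) + x i) =
        (s, w * i + x i) := by
      intro i hi
      rw [Nat.mul_add_div (by omega), Nat.div_eq_of_lt hi, Nat.mul_add_mod, Nat.mod_eq_of_lt hi, Nat.add_zero]
    refine ⟨s, ⟨i, hi, by rw [key i hi]⟩, ?_⟩
    rintro _ ⟨u, hu, rfl⟩
    rcases h4 u hu with ⟨i, hi, h5⟩ | ⟨i, hi, j, hj, h5, h6, h7⟩
    · refine Or.inl ⟨i, hi, ?_⟩
      rw [key i hi]
      have := congrArg Prod.snd h5
      exact Prod.ext rfl this
    · refine Or.inr ⟨i, hi, j, hj, by rw [key i hi], ?_, ?_⟩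
      · rw [key i hi, key j hj]
        have := congrArg Prod.snd h6
        exact Prod.ext rfl this
      · rw [key i hi]; exact h7

def D44 : List (ℕ × ℕ) :=
  [(12, 18842677543177029548076965952), (3, 18843867583999426475653357632), (13, 18766500763497376341495140868),
   (13, 18766467706878797276283191616), (2, 18843886170262782906030629184)]

def D45 : List (ℕ × ℕ) :=
  [(7, 398874830659079882321423750587490368), (3, 400543375660647204580173912977731648),
   (17, 398920465983973738040394549414375808), (2, 398874824469380049064778058606322048),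
   (3, 293756489294797189385917120448852032), (2, 398874836848780436153973279194620288),
   (2, 398874830659079513386524340614079168), (3, 292133896526486166126192075161235520),
   (17, 397297873310884512523801581575778688), (16, 400518023984548819726699489022206597)]

def D56 : List (ℕ × ℕ) :=
  [(15, 705048338898977855560005588255834423078599612771631168),
   (26, 705013255723411300218759834833480581688392927962472512),
   (3, 702703633687274978497993144051636577624707441047142464),
   (26, 705013255589606829150213685844719296716030506178761152),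
   (24, 702738701163084762729575414485960846374444988067225664)]

theorem chk44 : chk 3 4 D44 = true := by decide +kernel

theorem chk45 : chk 3 5 D45 = true := by decide +kernel

theorem chk56 : chk 4 6 D56 = true := by decide +kernel

end Pool.Agent.Hex
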